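import Pool.Agent.helper51.PC.Spec

set_option autoImplicit false

namespace Pool.Agent.PC

open MvPolynomial

universe u

theorem FIX_io (k : Type u) [Field k] (n d : ℕ) (a : RR k n d) :
    io k n d (algebraMap (RR k n d) (FF k n d) a) = algebraMap (AA k n) (KK k n) (a : AA k n) := by
  unfold io
  rw [IsFractionRing.liftAlgHom_apply, IsFractionRing.lift_algebraMap]
  rfl

theorem FIX_inj (k : Type u) [Field k] (n d p : ℕ) (hp : 0 < p)
    (h : ∀ f : AA k n, (sg k n d)^[p] f = f) : Function.Injective (sg k n d) := by
  intro a b hab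
  obtain ⟨q, rfl⟩ : ∃ q, p = q + 1 := ⟨p - 1, by omega⟩
  rw [← h a, ← h b, Function.iterate_succ_apply, Function.iterate_succ_apply, hab]

theorem FIX : FIX_stmt.{u} := by
  intro k _ n d p hnum hper s hs y
  have hp : 0 < p := hnum.1.pos
  have hinj := FIX_inj k n d p hp hper
  have hKinj : Function.Injective (algebraMap (AA k n) (KK k n)) := IsFractionRing.injective _ _
  constructor
  · intro hy
    obtain ⟨f, g, hg, hfg⟩ := IsFractionRing.div_surjective (A := AA k n) y
    have hg0 : g ≠ 0 := nonZeroDivisors.ne_zero hg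
    have hit : ∀ i : ℕ, (sg k n d)^[i] g ≠ 0 := by
      intro i
      induction i with
      | zero => exact hg0
      | succ i ih =>
        rw [Function.iterate_succ_apply']
        intro h0
        apply ih
        apply hinj
        rw [h0, map_zero]
    obtain ⟨q, rfl⟩ : ∃ q, p = q + 1 := ⟨p - 1, by omega⟩
    let h : AA k n := ∏ i ∈ Finset.range q, (sg k n d)^[i + 1] g
    have hG : g * h = ∏ i ∈ Finset.range (q + 1), (sg k n d)^[i] g := by
      rw [Finset.prod_range_succ', mul_comm]
      rfl
    have hG0 : g * h ≠ 0 := by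
      rw [hG]
      exact Finset.prod_ne_zero_iff.2 (fun i _ => hit i)
    have hGs : sg k n d (g * h) = g * h := by
      rw [hG, map_prod]
      have e : ∀ i ∈ Finset.range (q + 1), sg k n d ((sg k n d)^[i] g) = (sg k n d)^[i + 1] g := by
        intro i _
        rw [Function.iterate_succ_apply']
      rw [Finset.prod_congr rfl e, Finset.prod_range_succ, hper g, Finset.prod_range_succ']
      rfl
    have hGK : algebraMap (AA k n) (KK k n) (g * h) ≠ 0 := by
      intro h0
      apply hG0
      apply hKinj
      rw [h0, map_zero]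
    have hgK : algebraMap (AA k n) (KK k n) g ≠ 0 := by
      intro h0
      apply hg0
      apply hKinj
      rw [h0, map_zero]
    have hfh : algebraMap (AA k n) (KK k n) (f * h) = y * algebraMap (AA k n) (KK k n) (g * h) := by
      rw [← hfg, map_mul, map_mul]
      field_simp
    have hF : sg k n d (f * h) = f * h := by
      apply hKinj
      rw [← hs, hfh, map_mul, hy, hs, hGs]
    let aF : RR k n d := ⟨f * h, hF⟩
    let aG : RR k n d := ⟨g * h, hGs⟩
    refine ⟨algebraMap (RR k n d) (FF k n d) aF / algebraMap (RR k n d) (FF k n d) aG, ?_⟩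
    rw [map_div₀, FIX_io, FIX_io]
    show algebraMap (AA k n) (KK k n) (f * h) / algebraMap (AA k n) (KK k n) (g * h) = y
    rw [hfh, mul_div_assoc, div_self hGK, mul_one]
  · rintro ⟨x, rfl⟩
    obtain ⟨a, b, hb, hab⟩ := IsFractionRing.div_surjective (A := RR k n d) x
    rw [← hab, map_div₀, FIX_io, FIX_io, map_div₀, hs, hs]
    have ha : sg k n d (a : AA k n) = (a : AA k n) := a.2
    have hb : sg k n d (b : AA k n) = (b : AA k n) := b.2
    rw [ha, hb]

end Pool.Agent.PC
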