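import Pool.Agent.helper64.PC.SpecK

set_option autoImplicit false

namespace Pool.Agent.PC

open Pool.Agent.PB
open Finset

theorem HTM : HTM_stmt := by
  classical
  intro P Ps _ _ _ hs G lam B hG h
  obtain ⟨n, rfl⟩ : ∃ n, G = n + 1 := ⟨G - 1, by omega⟩
  have h1 : ct (fun ψ => B ⊆ hs ψ) * Fintype.card (Fin n → Ps) ≤
      ct (fun ω : Fin (n + 1) → Ps => B ⊆ univ.biUnion fun g => hs (ω g)) := by
    rw [ct_eq, ct_eq]
    rw [← Finset.card_univ (α := Fin n → Ps), ← Finset.card_product]
    apply Finset.card_le_card_of_injOn (fun p => Fin.cons p.1 p.2)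
    · intro p hp
      simp only [Finset.coe_product, Finset.coe_univ, Set.mem_prod, Set.mem_univ, and_true,
        Finset.mem_coe, Finset.mem_filter, Finset.mem_univ, true_and] at hp ⊢
      intro x hx
      rw [Finset.mem_biUnion]
      exact ⟨0, Finset.mem_univ _, by simpa using hp hx⟩
    · intro p _ q _ hpq
      have := Fin.cons_injective2 hpq
      exact Prod.ext this.1 this.2
  have h2 : Fintype.card (Fin (n + 1) → Ps) = Fintype.card Ps * Fintype.card (Fin n → Ps) := by
    simp only [Fintype.card_fun, Fintype.card_fin]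
    ring
  rw [h2]
  calc Fintype.card Ps * Fintype.card (Fin n → Ps)
      ≤ (ct (fun ψ => B ⊆ hs ψ) * lam) * Fintype.card (Fin n → Ps) := Nat.mul_le_mul_right _ h
    _ = (ct (fun ψ => B ⊆ hs ψ) * Fintype.card (Fin n → Ps)) * lam := by ring
    _ ≤ _ := Nat.mul_le_mul_right _ h1

end Pool.Agent.PC
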