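import Pool.Agent.helper64.PC.SpecE

set_option autoImplicit false

namespace Pool.Agent.PC

open Pool.Agent.PB

private theorem QNM_root (c K e : ℕ) (v : ℝ) (hc : 1 ≤ c) (hK : 11 ^ 18 * c ≤ K) (hv : (K : ℝ) ≤ v)
    (h : v ^ 19 < c * 2 ^ (18 * (e + 1))) : 11 * v < 2 ^ (e + 1) := by
  have hc' : (0 : ℝ) < c := by exact_mod_cast hc
  have hK' : (11 : ℝ) ^ 18 * c ≤ K := by exact_mod_cast hK
  have hv0 : 0 < v := lt_of_lt_of_le (by positivity) (hK'.trans hv)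
  have h1 : (c : ℝ) * (11 * v) ^ 18 ≤ v ^ 19 := by
    have h2 : (11 : ℝ) ^ 18 * c ≤ v := hK'.trans hv
    have h3 : (0 : ℝ) < v ^ 18 := by positivity
    calc (c : ℝ) * (11 * v) ^ 18 = (11 ^ 18 * c) * v ^ 18 := by ring
      _ ≤ v * v ^ 18 := mul_le_mul_of_nonneg_right h2 h3.le
      _ = v ^ 19 := by ring
  have h4 : (c : ℝ) * (11 * v) ^ 18 < c * (2 ^ (e + 1)) ^ 18 := by
    refine lt_of_le_of_lt h1 (lt_of_lt_of_eq h ?_)
    rw [← pow_mul, mul_comm (e + 1) 18]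
  have h5 := lt_of_mul_lt_mul_left h4 hc'.le
  exact lt_of_pow_lt_pow_left₀ 18 (by positivity) h5

theorem QNM : QNM_stmt := by
  intro c m hc hm
  obtain ⟨n₁, hn₁⟩ := hm
  obtain ⟨K, hK⟩ : ∃ K : ℕ, 11 ^ 18 * c ≤ K := ⟨_, le_rfl⟩
  refine ⟨max n₁ (2 ^ K) + 1, by omega, ?_⟩
  intro n hn
  have hnn₁ : n₁ ≤ n := le_trans (le_max_left _ _) (Nat.le_of_succ_le hn)
  have hnK : 2 ^ K ≤ n := le_trans (le_max_right _ _) (Nat.le_of_succ_le hn)
  have hn0 : 0 < n := by omega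
  obtain ⟨hm1, hmL⟩ := hn₁ n hnn₁
  have hK1 : 1 ≤ K := by
    have : 1 ≤ 11 ^ 18 * c := Nat.mul_pos (by norm_num) hc
    omega
  have hc' : (0 : ℝ) < c := by exact_mod_cast hc
  have hK' : (11 : ℝ) ^ 18 * c ≤ K := by exact_mod_cast hK
  have hnr : (0 : ℝ) < n := by exact_mod_cast hn0
  have hmr : (1 : ℝ) ≤ m n := by exact_mod_cast hm1
  have hLK : (K : ℝ) ≤ Real.logb 2 n := by
    rw [Real.le_logb_iff_rpow_le (by norm_num) hnr, Real.rpow_natCast]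
    exact_mod_cast hnK
  have hcm : 0 < c * m n := Nat.mul_pos hc hm1
  -- the first exponent
  have hx1 : Real.logb 2 n ^ 19 ≤ (n : ℝ) / m n := by
    rw [le_div_iff₀ (by linarith)]
    linarith
  have hQ : n / (c * m n) ≠ 0 := by
    have h1 : c * m n ≤ n := by
      have h2 : (c : ℝ) ≤ Real.logb 2 n ^ 19 := by
        have h3 : (1 : ℝ) ≤ Real.logb 2 n := le_trans (by exact_mod_cast hK1) hLK
        have h4 : (c : ℝ) ≤ Real.logb 2 n := by
          refine le_trans ?_ (hK'.trans hLK)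
          have : (1 : ℝ) ≤ 11 ^ 18 := by norm_num
          nlinarith
        calc (c : ℝ) ≤ Real.logb 2 n := h4
          _ = Real.logb 2 n ^ 1 := (pow_one _).symm
          _ ≤ Real.logb 2 n ^ 19 := pow_le_pow_right₀ h3 (by norm_num)
      have h5 : (c : ℝ) * m n ≤ n := by
        calc (c : ℝ) * m n ≤ Real.logb 2 n ^ 19 * m n :=
              mul_le_mul_of_nonneg_right h2 (by linarith)
          _ ≤ n := by rw [mul_comm]; exact hmL
      exact_mod_cast h5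
    exact (Nat.div_pos h1 hcm).ne'
  obtain ⟨e, he⟩ : ∃ e, e = Nat.log 2 (n / (c * m n)) / 18 := ⟨_, rfl⟩
  have he1 : 18 * e ≤ Nat.log 2 (n / (c * m n)) := by omega
  have he2 : Nat.log 2 (n / (c * m n)) + 1 ≤ 18 * (e + 1) := by omega
  have hq1 : 2 ^ (18 * e) * (c * m n) ≤ n := by
    have h1 : 2 ^ (18 * e) ≤ n / (c * m n) :=
      (Nat.pow_le_pow_right (by norm_num) he1).trans (Nat.pow_log_le_self 2 hQ)
    exact (Nat.le_div_iff_mul_le hcm).1 h1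
  have hq2 : n < 2 ^ (18 * (e + 1)) * (c * m n) := by
    have h1 : n / (c * m n) < 2 ^ (18 * (e + 1)) :=
      lt_of_lt_of_le (Nat.lt_pow_succ_log_self (by norm_num) _)
        (Nat.pow_le_pow_right (by norm_num) he2)
    exact (Nat.div_lt_iff_lt_mul hcm).1 h1
  have hxlt : (n : ℝ) / m n < c * 2 ^ (18 * (e + 1)) := by
    rw [div_lt_iff₀ (by linarith)]
    have h1 : (n : ℝ) < 2 ^ (18 * (e + 1)) * (c * m n) := by exact_mod_cast hq2
    linarith
  have hL11 : 11 * Real.logb 2 n < 2 ^ (e + 1) :=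
    QNM_root c K e _ hc hK hLK (lt_of_le_of_lt hx1 hxlt)
  have h11K : (11 : ℝ) ^ 18 ≤ Real.logb 2 n := by
    refine le_trans ?_ (hK'.trans hLK)
    have h1 : (1 : ℝ) ≤ c := by exact_mod_cast hc
    have h2 : (0 : ℝ) < 11 ^ 18 := by norm_num
    nlinarith
  have he6 : 6 ≤ e := by
    by_contra hlt
    have h1 : e + 1 ≤ 6 := by omega
    have h2 : (2 : ℝ) ^ (e + 1) ≤ 2 ^ 6 := pow_le_pow_right₀ (by norm_num) h1
    have h3 : (64 : ℝ) ≤ 11 ^ 18 := by norm_num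
    norm_num at h2
    linarith
  -- the second exponent
  have hR : n / c ≠ 0 := by
    have h1 : n / (c * m n) ≤ n / c := Nat.div_le_div_left (Nat.le_mul_of_pos_right _ hm1) hc
    exact (lt_of_lt_of_le (Nat.pos_of_ne_zero hQ) h1).ne'
  have hAB : Nat.log 2 (n / (c * m n)) ≤ Nat.log 2 (n / c) :=
    Nat.log_mono_right (Nat.div_le_div_left (Nat.le_mul_of_pos_right _ hm1) hc)
  obtain ⟨t, ht⟩ : ∃ t, t = Nat.log 2 (n / c) / (6 * e) := ⟨_, rfl⟩
  have h6e : 0 < 6 * e := by omega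
  have ht3 : 3 ≤ t := by
    rw [ht, Nat.le_div_iff_mul_le h6e]
    omega
  have ht1 : 6 * e * t ≤ Nat.log 2 (n / c) := by
    rw [ht, mul_comm]
    exact Nat.div_mul_le_self _ _
  have ht2 : Nat.log 2 (n / c) + 1 ≤ 6 * e * (t + 1) := by
    have h1 := Nat.lt_div_mul_add (a := Nat.log 2 (n / c)) h6e
    rw [← ht] at h1
    have h2 : 6 * e * (t + 1) = t * (6 * e) + 6 * e := by ring
    omega
  have hr1 : 2 ^ (6 * e * t) * c ≤ n := by
    have h1 : 2 ^ (6 * e * t) ≤ n / c :=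
      (Nat.pow_le_pow_right (by norm_num) ht1).trans (Nat.pow_log_le_self 2 hR)
    exact (Nat.le_div_iff_mul_le hc).1 h1
  have hr2 : n < 2 ^ (6 * e * (t + 1)) * c := by
    have h1 : n / c < 2 ^ (6 * e * (t + 1)) :=
      lt_of_lt_of_le (Nat.lt_pow_succ_log_self (by norm_num) _)
        (Nat.pow_le_pow_right (by norm_num) ht2)
    exact (Nat.div_lt_iff_lt_mul hc).1 h1
  obtain ⟨r, rfl⟩ : ∃ r, t = r + 1 := ⟨t - 1, by omega⟩
  obtain ⟨q, rfl⟩ : ∃ q, r = q + 1 := ⟨r - 1, by omega⟩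
  refine ⟨e, q + 1, he6, by omega, ?_, by rw [mul_comm]; exact hr1, ?_, ?_⟩
  · have h1 : ((6 * e * (q + 1 + 1) : ℕ) : ℝ) ≤ Real.logb 2 n := by
      rw [Real.le_logb_iff_rpow_le (by norm_num) hnr, Real.rpow_natCast]
      have h2 : 2 ^ (6 * e * (q + 1 + 1)) ≤ n := by
        calc 2 ^ (6 * e * (q + 1 + 1)) = 2 ^ (6 * e * (q + 1 + 1)) * 1 := (mul_one _).symm
          _ ≤ 2 ^ (6 * e * (q + 1 + 1)) * c := Nat.mul_le_mul_left _ hc
          _ ≤ n := hr1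
      exact_mod_cast h2
    have h2 : ((32 * e * (q + 1) : ℕ) : ℝ) ≤ ((2 ^ e : ℕ) : ℝ) := by
      push_cast at h1 ⊢
      rw [pow_succ] at hL11
      have h3 : (0 : ℝ) ≤ (e : ℝ) * (q + 1) := by positivity
      nlinarith
    exact_mod_cast h2
  · have h1 : 2 ^ (18 * e) * (c * m n) < 2 ^ (6 * e * (q + 1 + 1 + 1)) * c := lt_of_le_of_lt hq1 hr2
    have h2 : 2 ^ (6 * e * (q + 1 + 1 + 1)) = 2 ^ (18 * e) * 2 ^ (6 * e * q) := by
      rw [← pow_add]
      congr 1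
      ring
    rw [h2] at h1
    have h3 : (2 ^ (18 * e) * c) * m n < (2 ^ (18 * e) * c) * 2 ^ (6 * e * q) := by
      calc (2 ^ (18 * e) * c) * m n = 2 ^ (18 * e) * (c * m n) := by ring
        _ < 2 ^ (18 * e) * 2 ^ (6 * e * q) * c := h1
        _ = (2 ^ (18 * e) * c) * 2 ^ (6 * e * q) := by ring
    have h4 := lt_of_mul_lt_mul_left h3 (Nat.zero_le _)
    rw [Nat.add_sub_cancel]
    exact h4.le
  · intro s hs
    obtain ⟨u, hu⟩ : ∃ u : ℝ, u = ((n : ℝ) / m n) ^ (1 / 19 : ℝ) := ⟨_, rfl⟩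
    have hx0 : 0 ≤ (n : ℝ) / m n := by positivity
    have hu19 : u ^ 19 = (n : ℝ) / m n := by
      rw [hu, ← Real.rpow_natCast, ← Real.rpow_mul hx0]
      norm_num
    have hu0 : 0 ≤ u := by rw [hu]; positivity
    have hL0 : 0 ≤ Real.logb 2 n := le_trans (Nat.cast_nonneg K) hLK
    have huL : Real.logb 2 n ≤ u := by
      apply le_of_pow_le_pow_left₀ (n := 19) (by norm_num) hu0
      rw [hu19]
      exact hx1
    have hu11 : 11 * u < 2 ^ (e + 1) :=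
      QNM_root c K e u hc hK (hLK.trans huL) (by rw [hu19]; exact hxlt)
    rw [← hu]
    have hu1 : (1 : ℝ) ≤ u := le_trans (by exact_mod_cast hK1) (hLK.trans huL)
    have h1 : u + 1 ≤ ((2 ^ e : ℕ) : ℝ) := by
      push_cast
      rw [pow_succ] at hu11
      linarith
    have h2 : (2 : ℝ) ^ (u + 1) ≤ (2 : ℝ) ^ (((2 ^ e : ℕ) : ℝ)) :=
      Real.rpow_le_rpow_of_exponent_le (by norm_num) h1
    rw [Real.rpow_natCast, Real.rpow_add (by norm_num), Real.rpow_one] at h2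
    have h3 : ((2 : ℝ)) ^ (2 ^ e) ≤ (s : ℝ) + 2 := by exact_mod_cast hs
    have h4 : (2 : ℝ) ≤ 2 ^ u := by
      calc (2 : ℝ) = 2 ^ (1 : ℝ) := (Real.rpow_one 2).symm
        _ ≤ 2 ^ u := Real.rpow_le_rpow_of_exponent_le (by norm_num) hu1
    linarith

end Pool.Agent.PC
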